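import Mathlib

/-!
Digits, counts of digits, and the numbers `x + u / (b - 1)` and `- (b - 1) x`.
-/

set_option autoImplicit false

namespace Pool.Agent.H607.Tr

/-- the digit of index `k`, `k = 0, 1, …`, after the point of `x` in base `b` -/
noncomputable def dig (b : ℕ) (x : ℝ) (k : ℕ) : ℤ := ⌊x * (b : ℝ) ^ (k + 1)⌋ % b

/-- the `b` numbers: `x + u / (b - 1)` for `u < b - 1`, and `- (b - 1) x` for `u = b - 1` -/
noncomputable def member (b : ℕ) (x : ℝ) (u : ℕ) : ℝ :=
  if u + 1 = b then -(((b : ℝ) - 1) * x) else x + u / ((b : ℝ) - 1)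

/-- number of digits `d` among the first `N` digits after the point of `y` in base `b` -/
noncomputable def count (b : ℕ) (d : ℤ) (y : ℝ) (N : ℕ) : ℕ :=
  ((Finset.range N).filter (fun k => dig b y k = d)).card

end Pool.Agent.H607.Tr
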