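import Mathlib
import Pool.Agent.H607.Tr.Defs

set_option autoImplicit false

namespace Pool.Agent.H607.Tr

lemma dig_translate (b : ℕ) (hb : 2 ≤ b) (x : ℝ) (u k : ℕ) :
    dig b (x + u / ((b : ℝ) - 1)) k =
      (⌊x * (b : ℝ) ^ (k + 1) + u / ((b : ℝ) - 1)⌋ + u) % b := by
  have hb1 : (2 : ℝ) ≤ b := by exact_mod_cast hb
  have hne : (b : ℝ) - 1 ≠ 0 := by linarith
  obtain ⟨q, hq⟩ : ∃ q : ℕ, (b : ℝ) ^ (k + 1) = 1 + ((b : ℝ) - 1) * (1 + b * q) := by
    refine ⟨∑ i ∈ Finset.range k, b ^ i, ?_⟩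
    have h := geom_sum_mul (b : ℝ) (k + 1)
    rw [geom_sum_succ] at h
    push_cast
    linarith
  have h1 : (x + u / ((b : ℝ) - 1)) * (b : ℝ) ^ (k + 1) =
      (x * (b : ℝ) ^ (k + 1) + u / ((b : ℝ) - 1)) + ((u * (1 + b * q) : ℤ) : ℝ) := by
    rw [add_mul]
    have : u / ((b : ℝ) - 1) * (b : ℝ) ^ (k + 1) = u / ((b : ℝ) - 1) + u * (1 + b * q) := by
      rw [hq]
      field_simp
    rw [this]
    push_cast
    ring
  unfold dig
  rw [h1, Int.floor_add_intCast]
  have : ⌊x * (b : ℝ) ^ (k + 1) + u / ((b : ℝ) - 1)⌋ + (u * (1 + b * q) : ℤ) =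
      (⌊x * (b : ℝ) ^ (k + 1) + u / ((b : ℝ) - 1)⌋ + u) + b * (u * q) := by ring
  rw [this, Int.add_mul_emod_self_left]

/-- the digits of the `b` numbers at the place `k` -/
lemma digits (b : ℕ) (hb : 2 ≤ b) (x : ℝ) (hx : Irrational x) (k : ℕ) :
    ∃ n j : ℤ, 0 ≤ j ∧ j + 2 ≤ b ∧ ∀ u : ℕ, u < b →
      dig b (member b x u) k = (n + (if u + 1 = b then (b : ℤ) - 1 - j else
        if (b : ℤ) - 1 ≤ u + j then (u : ℤ) + 1 else u)) % b := by
  have hb1 : (2 : ℝ) ≤ b := by exact_mod_cast hb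
  have hpos : (0 : ℝ) < (b : ℝ) - 1 := by linarith
  set X : ℝ := x * (b : ℝ) ^ (k + 1) with hX
  set n : ℤ := ⌊X⌋ with hn
  set j : ℤ := ⌊((b : ℝ) - 1) * (X - n)⌋ with hj
  have hf0 : 0 ≤ X - n := sub_nonneg.2 (Int.floor_le X)
  have hf1 : X - n < 1 := by linarith [Int.lt_floor_add_one X]
  have hj1 : (j : ℝ) ≤ ((b : ℝ) - 1) * (X - n) := Int.floor_le _
  have hj2 : ((b : ℝ) - 1) * (X - n) < j + 1 := Int.lt_floor_add_one _
  have hj0 : 0 ≤ j := Int.floor_nonneg.2 (mul_nonneg hpos.le hf0)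
  have hjb : j + 2 ≤ b := by
    have : (j : ℝ) < (b : ℝ) - 1 := lt_of_le_of_lt hj1 (by nlinarith)
    have h2 : (j : ℝ) + 1 < (b : ℤ) := by push_cast; linarith
    have h3 : j + 1 < (b : ℤ) := by exact_mod_cast h2
    omega
  refine ⟨n, j, hj0, hjb, fun u hu => ?_⟩
  by_cases hub : u + 1 = b
  · rw [if_pos hub, member, if_pos hub]
    unfold dig
    have hirr : Irrational (((b : ℝ) - 1) * X) := by
      have h1 : ((b : ℝ) - 1) * X = x * (((b - 1) * b ^ (k + 1) : ℕ) : ℝ) := by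
        rw [hX]
        push_cast [Nat.cast_sub (show 1 ≤ b by omega)]
        ring
      rw [h1]
      apply hx.mul_natCast
      have : 0 < (b - 1) * b ^ (k + 1) := Nat.mul_pos (by omega) (by positivity)
      omega
    have hne : ((b : ℝ) - 1) * X ≠ (((b : ℤ) - 1) * n + j : ℤ) := fun h => hirr
      ⟨((((b : ℤ) - 1) * n + j : ℤ) : ℚ), by rw [h]; push_cast; ring⟩
    have h2 : ⌊-(((b : ℝ) - 1) * x) * (b : ℝ) ^ (k + 1)⌋ = -(((b : ℤ) - 1) * n + j) - 1 := by
      rw [Int.floor_eq_iff]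
      have h3 : -(((b : ℝ) - 1) * x) * (b : ℝ) ^ (k + 1) = -(((b : ℝ) - 1) * X) := by
        rw [hX]; ring
      rw [h3]
      push_cast at hne ⊢
      have h4 : ((b : ℝ) - 1) * n + j ≤ ((b : ℝ) - 1) * X := by linarith
      have h5 : ((b : ℝ) - 1) * n + j < ((b : ℝ) - 1) * X := lt_of_le_of_ne h4 (Ne.symm hne)
      constructor <;> linarith
    rw [h2]
    have : -(((b : ℤ) - 1) * n + j) - 1 = (n + ((b : ℤ) - 1 - j)) + b * (-n - 1) := by ring
    rw [this, Int.add_mul_emod_self_left]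
  · rw [if_neg hub, member, if_neg hub, dig_translate b hb]
    have hu1 : (u : ℝ) < (b : ℝ) - 1 := by
      have : u + 1 < b := by omega
      have : ((u + 1 : ℕ) : ℝ) < b := by exact_mod_cast this
      push_cast at this
      linarith
    have hu2 : (u : ℝ) / ((b : ℝ) - 1) < 1 := by rwa [div_lt_one hpos]
    have hu0 : 0 ≤ (u : ℝ) / ((b : ℝ) - 1) := by positivity
    have hmul : ((b : ℝ) - 1) * ((u : ℝ) / ((b : ℝ) - 1)) = u := by field_simp
    by_cases h : (b : ℤ) - 1 ≤ u + j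
    · rw [if_pos h]
      have h1 : ⌊X + u / ((b : ℝ) - 1)⌋ = n + 1 := by
        rw [Int.floor_eq_iff]
        have h' : ((b : ℝ) - 1) ≤ u + j := by exact_mod_cast h
        push_cast
        constructor
        · by_contra hc
          push Not at hc
          have : ((b : ℝ) - 1) * (X + u / ((b : ℝ) - 1) - n) < ((b : ℝ) - 1) * 1 :=
            mul_lt_mul_of_pos_left (by linarith) hpos
          nlinarith
        · linarith
      rw [h1]
      congr 1
      ring
    · rw [if_neg h]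
      have h1 : ⌊X + u / ((b : ℝ) - 1)⌋ = n := by
        rw [Int.floor_eq_iff]
        have h'' : (u : ℤ) + j + 1 ≤ (b : ℤ) - 1 := by omega
        have h' : (u : ℝ) + j + 1 ≤ (b : ℝ) - 1 := by exact_mod_cast h''
        constructor
        · linarith
        · by_contra hc
          push Not at hc
          have : ((b : ℝ) - 1) * 1 ≤ ((b : ℝ) - 1) * (X + u / ((b : ℝ) - 1) - n) :=
            mul_le_mul_of_nonneg_left (by linarith) hpos.le
          nlinarith
      rw [h1]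

theorem unique_member (b : ℕ) (hb : 2 ≤ b) (x : ℝ) (hx : Irrational x) (k : ℕ) (d : ℤ)
    (hd0 : 0 ≤ d) (hdb : d < b) : ∃! u : ℕ, u < b ∧ dig b (member b x u) k = d := by
  obtain ⟨n, j, hj0, hjb, h⟩ := digits b hb x hx k
  have hbz : (0 : ℤ) < b := by omega
  set r : ℤ := (d - n) % b with hr
  have hr0 : 0 ≤ r := Int.emod_nonneg _ hbz.ne'
  have hrb : r < b := Int.emod_lt_of_pos _ hbz
  have key : ∀ v : ℤ, 0 ≤ v → v < b → ((n + v) % b = d ↔ v = r) := by
    intro v hv0 hvb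
    constructor
    · intro h1
      have e1 := Int.emod_add_mul_ediv (n + v) b
      rw [h1] at e1
      have e2 : d - n = v + b * (-((n + v) / b)) := by linarith
      rw [hr, e2, Int.add_mul_emod_self_left, Int.emod_eq_of_lt hv0 hvb]
    · intro hv
      have e1 := Int.emod_add_mul_ediv (d - n) b
      rw [← hr] at e1
      have e2 : n + v = d + b * (-((d - n) / b)) := by rw [hv]; linarith
      rw [e2, Int.add_mul_emod_self_left, Int.emod_eq_of_lt hd0 hdb]
  have hdig : ∀ u : ℕ, u < b → (dig b (member b x u) k = d ↔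
      (if u + 1 = b then (b : ℤ) - 1 - j else
        if (b : ℤ) - 1 ≤ u + j then (u : ℤ) + 1 else u) = r) := by
    intro u hu
    rw [h u hu]
    apply key
    · split_ifs <;> omega
    · split_ifs <;> omega
  rcases lt_trichotomy r ((b : ℤ) - 1 - j) with hlt | heq | hgt
  · refine ⟨r.toNat, ⟨by omega, (hdig _ (by omega)).2 (by split_ifs <;> omega)⟩, ?_⟩
    rintro u ⟨hu, hu2⟩
    have := (hdig u hu).1 hu2
    split_ifs at this <;> omega
  · refine ⟨b - 1, ⟨by omega, (hdig _ (by omega)).2 (by split_ifs <;> omega)⟩, ?_⟩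
    rintro u ⟨hu, hu2⟩
    have := (hdig u hu).1 hu2
    split_ifs at this <;> omega
  · refine ⟨(r - 1).toNat, ⟨by omega, (hdig _ (by omega)).2 (by split_ifs <;> omega)⟩, ?_⟩
    rintro u ⟨hu, hu2⟩
    have := (hdig u hu).1 hu2
    split_ifs at this <;> omega

/-- the counts of a digit in the `b` numbers add up to the number of places -/
theorem sum_counts (b : ℕ) (hb : 2 ≤ b) (x : ℝ) (hx : Irrational x) (d : ℤ)
    (hd0 : 0 ≤ d) (hdb : d < b) (N : ℕ) :
    ∑ u ∈ Finset.range b, ((Finset.range N).filter (fun k => dig b (member b x u) k = d)).card =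
      N := by
  have h1 : ∀ k, ∑ u ∈ Finset.range b, (if dig b (member b x u) k = d then 1 else 0) = 1 := by
    intro k
    obtain ⟨u, ⟨hu, hu2⟩, huniq⟩ := unique_member b hb x hx k d hd0 hdb
    rw [Finset.sum_eq_single_of_mem u (Finset.mem_range.2 hu), if_pos hu2]
    intro v hv hvu
    rw [if_neg]
    intro h
    exact hvu (huniq v ⟨Finset.mem_range.1 hv, h⟩)
  simp only [Finset.card_filter]
  rw [Finset.sum_comm]
  simp only [h1]
  simp

/-- a number whose digits are finally constant is rational -/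
lemma rational_of_constant (b : ℕ) (hb : 2 ≤ b) (w : ℝ) (d : ℤ) (K : ℕ)
    (h : ∀ k, K ≤ k → dig b w k = d) : ¬ Irrational w := by
  have hb1 : (2 : ℝ) ≤ b := by exact_mod_cast hb
  have hpos : (0 : ℝ) < (b : ℝ) - 1 := by linarith
  set y : ℕ → ℝ := fun k => Int.fract (w * (b : ℝ) ^ k) with hy
  have step : ∀ k, K ≤ k → y (k + 1) = b * y k - d := by
    intro k hk
    have h1 := h k hk
    unfold dig at h1
    have e1 := Int.emod_add_mul_ediv ⌊w * (b : ℝ) ^ (k + 1)⌋ b
    rw [h1] at e1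
    have e2 : ⌊w * (b : ℝ) ^ (k + 1)⌋ / (b : ℤ) = ⌊w * (b : ℝ) ^ k⌋ := by
      have : w * (b : ℝ) ^ k = w * (b : ℝ) ^ (k + 1) / ((b : ℕ) : ℝ) := by
        rw [eq_div_iff (by positivity)]
        ring
      rw [this, Int.floor_div_natCast]
    rw [e2] at e1
    have e3 : ((⌊w * (b : ℝ) ^ (k + 1)⌋ : ℤ) : ℝ) = d + b * ⌊w * (b : ℝ) ^ k⌋ := by
      rw [← e1]; push_cast; ring
    simp only [hy, Int.fract, e3]
    ring
  have hD : ∀ i, y (K + i) - d / ((b : ℝ) - 1) = (b : ℝ) ^ i * (y K - d / ((b : ℝ) - 1)) := by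
    intro i
    induction i with
    | zero => simp
    | succ i ih =>
      rw [show K + (i + 1) = (K + i) + 1 by ring, step _ (by omega), pow_succ]
      have : (b : ℝ) * y (K + i) - d - d / ((b : ℝ) - 1) =
          b * (y (K + i) - d / ((b : ℝ) - 1)) := by
        field_simp
        ring
      rw [this, ih]
      ring
  have hz : y K - d / ((b : ℝ) - 1) = 0 := by
    by_contra hne
    have hb' : (1 : ℝ) < b := by linarith
    have hpos' : 0 < |y K - d / ((b : ℝ) - 1)| := abs_pos.2 hne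
    obtain ⟨i, hi⟩ := pow_unbounded_of_one_lt
      ((1 + |d / ((b : ℝ) - 1)|) / |y K - d / ((b : ℝ) - 1)|) hb'
    rw [div_lt_iff₀ hpos'] at hi
    have h1 : |y (K + i) - d / ((b : ℝ) - 1)| ≤ 1 + |d / ((b : ℝ) - 1)| := by
      refine (abs_sub _ _).trans ?_
      have : |y (K + i)| ≤ 1 := by
        rw [abs_of_nonneg (Int.fract_nonneg _)]
        exact (Int.fract_lt_one _).le
      linarith
    rw [hD i, abs_mul, abs_of_pos (by positivity)] at h1
    linarith
  intro hirr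
  have hbK : (b : ℝ) ^ K ≠ 0 := by positivity
  have e1 : w = ((((⌊w * (b : ℝ) ^ K⌋ : ℤ) : ℚ) + d / ((b : ℚ) - 1)) / (b : ℚ) ^ K : ℚ) := by
    push_cast
    rw [eq_div_iff hbK]
    have : w * (b : ℝ) ^ K - ⌊w * (b : ℝ) ^ K⌋ = d / ((b : ℝ) - 1) := by
      have := hz
      simp only [hy, Int.fract] at this
      linarith
    linarith
  exact hirr ⟨_, e1.symm⟩

/-- each digit stands infinitely often in one of the `b - 1` numbers `x + u / (b - 1)` -/
theorem infinitely_often (b : ℕ) (hb : 2 ≤ b) (x : ℝ) (hx : Irrational x) (d : ℤ)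
    (hd0 : 0 ≤ d) (hdb : d < b) :
    ∃ u : ℕ, u + 1 < b ∧ {k : ℕ | dig b (x + u / ((b : ℝ) - 1)) k = d}.Infinite := by
  by_contra hcon
  push Not at hcon
  have hfin : ∀ u : ℕ, u + 1 < b → {k : ℕ | dig b (x + u / ((b : ℝ) - 1)) k = d}.Finite := by
    intro u hu
    have := hcon u hu
    simpa using this
  have hfin2 : (⋃ u ∈ Finset.range (b - 1),
      {k : ℕ | dig b (x + (u : ℕ) / ((b : ℝ) - 1)) k = d}).Finite := by
    apply Set.Finite.biUnion (Finset.finite_toSet _)
    intro u hu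
    have := Finset.mem_range.1 (Finset.mem_coe.1 hu)
    exact hfin u (by omega)
  obtain ⟨K, hK⟩ := hfin2.bddAbove
  have hconst : ∀ k, K + 1 ≤ k → dig b (-(((b : ℝ) - 1) * x)) k = d := by
    intro k hk
    obtain ⟨u, ⟨hu, hu2⟩, -⟩ := unique_member b hb x hx k d hd0 hdb
    by_cases hub : u + 1 = b
    · rw [member, if_pos hub] at hu2
      exact hu2
    · rw [member, if_neg hub] at hu2
      have hmem : k ∈ (⋃ u ∈ Finset.range (b - 1),
          {k : ℕ | dig b (x + (u : ℕ) / ((b : ℝ) - 1)) k = d}) := by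
        simp only [Set.mem_iUnion, Finset.mem_range, Set.mem_ofPred_eq]
        exact ⟨u, by omega, hu2⟩
      have := hK hmem
      omega
  refine rational_of_constant b hb _ d (K + 1) hconst ?_
  have : -(((b : ℝ) - 1) * x) = -(x * ((b - 1 : ℕ) : ℝ)) := by
    rw [Nat.cast_sub (by omega)]
    push_cast
    ring
  rw [this]
  exact (hx.mul_natCast (by omega)).neg

end Pool.Agent.H607.Tr
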