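import Mathlib
import Pool.Agent.H607.Tr.Upper
import Pool.Graph.R_pool_sql_team_seeded_1e53cb71.Helper80K9.DP.Appl

set_option autoImplicit false

namespace Pool.Agent.H607.Tr

lemma sum_translates (b : ℕ) (hb : 2 ≤ b) (x : ℝ) (hx : Irrational x) (d : ℤ)
    (hd0 : 0 ≤ d) (hdb : d < b) (N : ℕ) :
    ∑ u ∈ Finset.range (b - 1), count b d (x + u / ((b : ℝ) - 1)) N =
      ((Finset.range N).filter (fun k => dig b (-(((b : ℝ) - 1) * x)) k ≠ d)).card := by
  have h := sum_counts b hb x hx d hd0 hdb N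
  obtain ⟨c, rfl⟩ : ∃ c, b = c + 1 := ⟨b - 1, by omega⟩
  rw [Finset.sum_range_succ] at h
  have h1 : member (c + 1) x c = -((((c + 1 : ℕ) : ℝ) - 1) * x) := by rw [member, if_pos rfl]
  have h2 : ∑ u ∈ Finset.range c, ((Finset.range N).filter
      (fun k => dig (c + 1) (member (c + 1) x u) k = d)).card =
      ∑ u ∈ Finset.range (c + 1 - 1), count (c + 1) d (x + u / (((c + 1 : ℕ) : ℝ) - 1)) N := by
    refine Finset.sum_congr (by simp) fun u hu => ?_
    have : u < c := Finset.mem_range.1 hu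
    rw [member, if_neg (by omega), count]
  rw [h2, h1] at h
  have h3 := Finset.card_filter_add_card_filter_not (s := Finset.range N)
    (fun k => dig (c + 1) (-((((c + 1 : ℕ) : ℝ) - 1) * x)) k = d)
  rw [Finset.card_range] at h3
  have h4 : ((Finset.range N).filter
      (fun k => ¬ dig (c + 1) (-((((c + 1 : ℕ) : ℝ) - 1) * x)) k = d)).card =
      ((Finset.range N).filter
      (fun k => dig (c + 1) (-((((c + 1 : ℕ) : ℝ) - 1) * x)) k ≠ d)).card := rfl
  omega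

theorem quadratic (b : ℕ) (hb : 2 ≤ b) (x : ℝ) (hx : Irrational x) (A B C : ℤ) (hA : A ≠ 0)
    (hrel : (A : ℝ) * x ^ 2 + B * x + C = 0) (d : ℤ) (hd0 : 0 ≤ d) (hdb : d < b) :
    ∃ N0 : ℕ, ∀ N : ℕ, N0 ≤ N → (1 / 200) * (Real.log N / Real.log (Real.log N)) ^ 2 ≤
      ((∑ u ∈ Finset.range (b - 1), count b d (x + u / ((b : ℝ) - 1)) (N + 1) : ℕ) : ℝ) := by
  classical
  set y : ℝ := -(((b : ℝ) - 1) * x) with hy
  have hyirr : Irrational y := by
    have : -(((b : ℝ) - 1) * x) = -(x * ((b - 1 : ℕ) : ℝ)) := by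
      rw [Nat.cast_sub (by omega)]
      push_cast
      ring
    rw [hy, this]
    exact (hx.mul_natCast (by omega)).neg
  have hrel' : (A : ℝ) * y ^ 2 + ((-((b : ℤ) - 1) * B : ℤ) : ℝ) * y +
      ((((b : ℤ) - 1) ^ 2 * C : ℤ) : ℝ) = 0 := by
    have : (A : ℝ) * y ^ 2 + ((-((b : ℤ) - 1) * B : ℤ) : ℝ) * y +
      ((((b : ℤ) - 1) ^ 2 * C : ℤ) : ℝ) =
        ((b : ℝ) - 1) ^ 2 * ((A : ℝ) * x ^ 2 + B * x + C) := by
      rw [hy]; push_cast; ring
    rw [this, hrel, mul_zero]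
  obtain ⟨N0, hN0⟩ := Pool.Agent.Helper80K9.DC.digit_changes hb hyirr hA hrel' (le_refl 1)
  refine ⟨N0, fun N hN => ?_⟩
  have h1 := hN0 N hN
  rw [sum_translates b hb x hx d hd0 hdb]
  set W : Finset ℕ := (Finset.range (N + 1)).filter (fun k => dig b y k ≠ d) with hW
  have h2 : ((Finset.Icc 1 N).filter fun k => Pool.Agent.Helper80K9.DC.dig b y (k + 1) ≠
      Pool.Agent.Helper80K9.DC.dig b y k).card ≤ 2 * W.card := by
    have hsub : ((Finset.Icc 1 N).filter fun k => Pool.Agent.Helper80K9.DC.dig b y (k + 1) ≠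
        Pool.Agent.Helper80K9.DC.dig b y k) ⊆ W ∪ W.image (fun k => k + 1) := by
      intro k hk
      obtain ⟨hk1, hk2⟩ := Finset.mem_filter.1 hk
      obtain ⟨hk3, hk4⟩ := Finset.mem_Icc.1 hk1
      by_cases h : Pool.Agent.Helper80K9.DC.dig b y (k + 1) = d
      · refine Finset.mem_union_right _ (Finset.mem_image.2 ⟨k - 1, ?_, by omega⟩)
        refine Finset.mem_filter.2 ⟨Finset.mem_range.2 (by omega), fun h' => hk2 ?_⟩
        have e : dig b y (k - 1) = Pool.Agent.Helper80K9.DC.dig b y k := by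
          unfold dig Pool.Agent.Helper80K9.DC.dig
          rw [Nat.sub_add_cancel hk3]
        rw [h, ← e, h']
      · exact Finset.mem_union_left _ (Finset.mem_filter.2 ⟨Finset.mem_range.2 (by omega), h⟩)
    refine (Finset.card_le_card hsub).trans ((Finset.card_union_le _ _).trans ?_)
    have := Finset.card_image_le (s := W) (f := fun k => k + 1)
    omega
  have h3 : (((Finset.Icc 1 N).filter fun k => Pool.Agent.Helper80K9.DC.dig b y (k + 1) ≠
      Pool.Agent.Helper80K9.DC.dig b y k).card : ℝ) ≤ 2 * (W.card : ℝ) := by exact_mod_cast h2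
  linarith

theorem algebraic (b : ℕ) (hb : 2 ≤ b) (x : ℝ) (hx : Irrational x) (P : Polynomial ℤ)
    (hP : ∀ q : ℕ, q.Prime → (q : ℤ) ∣ P.leadingCoeff → q ∣ b)
    (hPx : Polynomial.aeval x P = 0) (d : ℤ) (hd0 : 0 < d) (hdb : d + 1 < b) :
    ∃ c : ℝ, 0 < c ∧ ∃ N0 : ℕ, ∀ N : ℕ, N0 ≤ N → c * N ≤
      ((∑ u ∈ Finset.range (b - 1), count b d (x + u / ((b : ℝ) - 1)) N : ℕ) : ℝ) ^
        P.natDegree := by
  classical
  have hb1 : (2 : ℝ) ≤ b := by exact_mod_cast hb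
  have hpos : (0 : ℝ) < (b : ℝ) - 1 := by linarith
  set Q : Polynomial ℤ := P.scaleRoots (-((b : ℤ) - 1)) with hQ
  set y : ℝ := -(((b : ℝ) - 1) * x) with hy
  have hQy : Polynomial.aeval y Q = 0 := by
    have h := Polynomial.scaleRoots_aeval_eq_zero (r := -((b : ℤ) - 1)) hPx
    have e : (algebraMap ℤ ℝ) (-((b : ℤ) - 1)) * x = y := by
      rw [hy]
      simp
      ring
    rw [e] at h
    exact h
  have hQl : Q.leadingCoeff = P.leadingCoeff := Polynomial.leadingCoeff_scaleRoots _ _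
  have hQd : Q.natDegree = P.natDegree := Polynomial.natDegree_scaleRoots _ _
  obtain ⟨u, rfl⟩ : ∃ u : ℕ, d = u := ⟨d.toNat, by omega⟩
  set r : ℚ := (u : ℚ) / ((b : ℚ) - 1) with hr
  have hbq : ((b : ℚ) - 1) ≠ 0 := by
    have : (2 : ℚ) ≤ b := by exact_mod_cast hb
    linarith
  have hrt : ∀ (j : ℕ) (n : ℤ), r * (b : ℚ) ^ j ≠ n := by
    intro j n h
    have h1 : (u : ℚ) * (b : ℚ) ^ j = n * ((b : ℚ) - 1) := by
      rw [hr] at h
      field_simp at h
      linarith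
    have h2 : (u : ℤ) * (b : ℤ) ^ j = n * ((b : ℤ) - 1) := by exact_mod_cast h1
    have h3 : ((b : ℤ) - 1) ∣ (u : ℤ) * (b : ℤ) ^ j := ⟨n, by rw [h2]; ring⟩
    have h4 : IsCoprime ((b : ℤ) - 1) ((b : ℤ) ^ j) :=
      IsCoprime.pow_right ⟨-1, 1, by ring⟩
    have h5 : ((b : ℤ) - 1) ∣ (u : ℤ) := h4.dvd_of_dvd_mul_right h3
    have := Int.le_of_dvd hd0 h5
    omega
  obtain ⟨c, hc, N0, hN0⟩ := Pool.Agent.Helper80K9.DP.digits_vs_rational hb
    (P := Q) (by rw [hQl]; exact hP) hQy hrt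
  refine ⟨c, hc, N0, fun N hN => ?_⟩
  have h1 := hN0 N hN
  rw [hQd] at h1
  refine h1.trans (pow_le_pow_left₀ (by positivity) ?_ _)
  rw [sum_translates b hb x hx u hd0.le (by omega)]
  have hrd : ∀ k, 1 ≤ k → Pool.Agent.Helper80K9.DC.dig b ((r : ℚ) : ℝ) k = u := by
    intro k hk
    have e : ((r : ℚ) : ℝ) = (0 : ℝ) + u / ((b : ℝ) - 1) := by
      rw [hr]; push_cast; ring
    have h2 := dig_translate b hb 0 u (k - 1)
    rw [← e] at h2
    have h3 : dig b ((r : ℚ) : ℝ) (k - 1) = Pool.Agent.Helper80K9.DC.dig b ((r : ℚ) : ℝ) k := by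
      unfold dig Pool.Agent.Helper80K9.DC.dig
      rw [Nat.sub_add_cancel hk]
    rw [h3, zero_mul, zero_add] at h2
    have h4 : ⌊(u : ℝ) / ((b : ℝ) - 1)⌋ = 0 := by
      rw [Int.floor_eq_zero_iff]
      refine ⟨by positivity, ?_⟩
      rw [div_lt_one hpos]
      have : ((u : ℤ) : ℝ) + 1 < (b : ℤ) := by exact_mod_cast hdb
      push_cast at this
      linarith
    rw [h2, h4, zero_add, Int.emod_eq_of_lt (by positivity) (by omega)]
  have hsub : ((Finset.Icc 1 N).filter fun k => Pool.Agent.Helper80K9.DC.dig b y k ≠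
      Pool.Agent.Helper80K9.DC.dig b ((r : ℚ) : ℝ) k) ⊆
      ((Finset.range N).filter (fun k => dig b y k ≠ u)).image (fun k => k + 1) := by
    intro k hk
    obtain ⟨hk1, hk2⟩ := Finset.mem_filter.1 hk
    obtain ⟨hk3, hk4⟩ := Finset.mem_Icc.1 hk1
    refine Finset.mem_image.2 ⟨k - 1, Finset.mem_filter.2 ⟨Finset.mem_range.2 (by omega), ?_⟩,
      by omega⟩
    intro h
    apply hk2
    rw [hrd k hk3, ← h]
    unfold dig Pool.Agent.Helper80K9.DC.dig
    rw [Nat.sub_add_cancel hk3]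
  have := (Finset.card_le_card hsub).trans Finset.card_image_le
  exact Nat.cast_le.2 this

theorem exists_large (s : Finset ℕ) (f : ℕ → ℕ) (S : ℝ) (m : ℕ) (hs : s.card = m) (hm : 0 < m)
    (h : S ≤ ((∑ u ∈ s, f u : ℕ) : ℝ)) : ∃ u ∈ s, S / m ≤ f u := by
  have hne : s.Nonempty := Finset.card_pos.1 (by omega)
  by_contra hcon
  push Not at hcon
  have h1 : ∑ u ∈ s, (f u : ℝ) < ∑ _u ∈ s, S / m := Finset.sum_lt_sum_of_nonempty hne hcon
  rw [Finset.sum_const, hs, nsmul_eq_mul, mul_div_cancel₀ _ (by positivity)] at h1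
  push_cast at h
  linarith

theorem sqrt_two_power (d : ℤ) (hd0 : 1 ≤ d) (hd8 : d ≤ 8) :
    ∃ c : ℝ, 0 < c ∧ ∃ N0 : ℕ, ∀ N : ℕ, N0 ≤ N → ∃ u : ℕ, u ≤ 8 ∧
      c * Real.sqrt N ≤ count 10 d (Real.sqrt 2 + u / 9) N := by
  obtain ⟨c, hc, N0, hN0⟩ := algebraic 10 (by norm_num) (Real.sqrt 2) irrational_sqrt_two
    (Polynomial.X ^ 2 - Polynomial.C 2) (by
      intro q hq h
      rw [show (Polynomial.X ^ 2 - Polynomial.C 2 : Polynomial ℤ).leadingCoeff = 1 from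
        Polynomial.monic_X_pow_sub_C 2 (by norm_num)] at h
      exact absurd h (Nat.prime_iff_prime_int.1 hq).not_dvd_one) (by
      rw [map_sub, map_pow, Polynomial.aeval_X, Polynomial.aeval_C]
      rw [Real.sq_sqrt (by norm_num)]
      simp) d (by omega) (by push_cast; omega)
  refine ⟨Real.sqrt c / 9, by positivity, N0, fun N hN => ?_⟩
  have h1 := hN0 N hN
  rw [show (Polynomial.X ^ 2 - Polynomial.C 2 : Polynomial ℤ).natDegree = 2 from
    Polynomial.natDegree_X_pow_sub_C] at h1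
  have h2 := Real.sqrt_le_sqrt h1
  rw [Real.sqrt_sq (Nat.cast_nonneg _), Real.sqrt_mul hc.le] at h2
  obtain ⟨u, hu, hu2⟩ := exists_large _ _ _ 9 (by simp) (by norm_num) h2
  refine ⟨u, by have := Finset.mem_range.1 hu; omega, ?_⟩
  have e : (((10 : ℕ) : ℝ) - 1) = 9 := by norm_num
  rw [e] at hu2
  refine le_trans (le_of_eq ?_) hu2
  push_cast
  ring

theorem sqrt_two_all (d : ℤ) (hd0 : 0 ≤ d) (hd9 : d ≤ 9) :
    ∃ N0 : ℕ, ∀ N : ℕ, N0 ≤ N → ∃ u : ℕ, u ≤ 8 ∧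
      (1 / 1800) * (Real.log N / Real.log (Real.log N)) ^ 2 ≤
        count 10 d (Real.sqrt 2 + u / 9) (N + 1) := by
  obtain ⟨N0, hN0⟩ := quadratic 10 (by norm_num) (Real.sqrt 2) irrational_sqrt_two 1 0 (-2)
    one_ne_zero (by
      rw [Real.sq_sqrt (by norm_num)]
      norm_num) d hd0 (by push_cast; omega)
  refine ⟨N0, fun N hN => ?_⟩
  obtain ⟨u, hu, hu2⟩ := exists_large _ _ _ 9 (by simp) (by norm_num) (hN0 N hN)
  refine ⟨u, by have := Finset.mem_range.1 hu; omega, ?_⟩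
  have e : (((10 : ℕ) : ℝ) - 1) = 9 := by norm_num
  rw [e] at hu2
  refine le_trans (le_of_eq ?_) hu2
  push_cast
  ring

end Pool.Agent.H607.Tr
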