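import Mathlib
import Pool.Agent.H607.Tr.Quant
import Pool.Graph.R_seed8.TH842.A3.Uni

set_option autoImplicit false

namespace Pool.Agent.H607.Tr

theorem all_algebraic (b : ℕ) (hb : 2 ≤ b) (x : ℝ) (hx : Irrational x) (hax : IsAlgebraic ℚ x)
    (d : ℤ) (hd0 : 0 ≤ d) (hdb : d < b) :
    ∃ c : ℝ, 0 < c ∧ ∃ N0 : ℕ, ∀ N : ℕ, N0 ≤ N →
      c * (Real.log N) ^ 3 / (Real.log (Real.log N)) ^ 5 ≤
      ((∑ u ∈ Finset.range (b - 1), count b d (x + u / ((b : ℝ) - 1)) N : ℕ) : ℝ) := by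
  classical
  set y : ℝ := -(((b : ℝ) - 1) * x) with hy
  have e0 : -(((b : ℝ) - 1) * x) = -(x * ((b - 1 : ℕ) : ℝ)) := by
    rw [Nat.cast_sub (by omega)]
    push_cast
    ring
  have hyirr : Irrational y := by
    rw [hy, e0]
    exact (hx.mul_natCast (by omega)).neg
  have hyalg : IsAlgebraic ℚ y := by
    rw [hy, e0]
    exact (hax.mul (isAlgebraic_natCast _)).neg
  have hbd : ∀ k, |Pool.Agent.Helper80K9.DC.aa b y k| ≤ ⌈(b : ℝ) + |y| + 1⌉ := by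
    intro k
    have h := Pool.Agent.Helper80K9.DC.aa_bound hb y k
    have h2 := h.trans (Int.le_ceil _)
    exact_mod_cast h2
  have hsum : HasSum (fun k : ℕ => (Pool.Agent.Helper80K9.DC.aa b y k : ℝ) / (b : ℝ) ^ k) y := by
    have h1 := (Pool.Agent.Helper80K9.DP.summable_aa hb y).hasSum
    rw [Pool.Agent.Helper80K9.DP.tsum_aa hb y] at h1
    have h2 : (fun k : ℕ => (Pool.Agent.Helper80K9.DC.aa b y k : ℝ) / (b : ℝ) ^ k) =
        fun k : ℕ => (Pool.Agent.Helper80K9.DC.aa b y k : ℝ) * (1 / b : ℝ) ^ k := by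
      funext k
      rw [one_div, inv_pow, div_eq_mul_inv]
    rw [h2]
    exact h1
  obtain ⟨c, hc, N0, hN0⟩ := Pool.Agent.TH842.A3.Uni.relations_one y hyalg hyirr b hb
    (Pool.Agent.Helper80K9.DC.aa b y) _ hbd hsum 0 (fun _ => 1) ⟨0, le_rfl, one_ne_zero⟩ d
  refine ⟨c, hc, N0, fun N hN => (hN0 N hN).trans ?_⟩
  rw [sum_translates b hb x hx d hd0 hdb]
  refine Nat.cast_le.2 ?_
  have hsub : ((Finset.Icc 1 N).filter (fun k : ℕ =>
      ∑ j ∈ Finset.range (0 + 1), (1 : ℤ) * Pool.Agent.Helper80K9.DC.aa b y (k + j) ≠ d)) ⊆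
      ((Finset.range N).filter (fun k => dig b y k ≠ d)).image (fun k => k + 1) := by
    intro k hk
    obtain ⟨hk1, hk2⟩ := Finset.mem_filter.1 hk
    obtain ⟨hk3, hk4⟩ := Finset.mem_Icc.1 hk1
    simp only [zero_add, Finset.range_one, Finset.sum_singleton, add_zero, one_mul] at hk2
    refine Finset.mem_image.2 ⟨k - 1, Finset.mem_filter.2 ⟨Finset.mem_range.2 (by omega), ?_⟩,
      by omega⟩
    intro h
    apply hk2
    rw [← h]
    obtain ⟨i, rfl⟩ : ∃ i, k = i + 1 := ⟨k - 1, by omega⟩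
    rw [Nat.add_sub_cancel]
    exact (Pool.Agent.Helper80K9.DC.dig_eq hb y i).symm
  exact (Finset.card_le_card hsub).trans Finset.card_image_le

theorem sqrt_two_digits (d : ℤ) (hd0 : 0 ≤ d) (hd9 : d ≤ 9) :
    ∃ c : ℝ, 0 < c ∧ ∃ N0 : ℕ, ∀ N : ℕ, N0 ≤ N → ∃ u : ℕ, u ≤ 8 ∧
      c * (Real.log N) ^ 3 / (Real.log (Real.log N)) ^ 5 ≤
        count 10 d (Real.sqrt 2 + u / 9) N := by
  have halg : IsAlgebraic ℚ (Real.sqrt 2) := by
    refine IsAlgebraic.of_pow (n := 2) (by norm_num) ?_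
    rw [Real.sq_sqrt (by norm_num)]
    exact_mod_cast isAlgebraic_natCast (R := ℚ) (A := ℝ) 2
  obtain ⟨c, hc, N0, hN0⟩ := all_algebraic 10 (by norm_num) (Real.sqrt 2) irrational_sqrt_two halg
    d hd0 (by push_cast; omega)
  refine ⟨c / 9, by positivity, N0, fun N hN => ?_⟩
  obtain ⟨u, hu, hu2⟩ := exists_large _ _ _ 9 (by simp) (by norm_num) (hN0 N hN)
  refine ⟨u, by have := Finset.mem_range.1 hu; omega, ?_⟩
  have e : (((10 : ℕ) : ℝ) - 1) = 9 := by norm_num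
  rw [e] at hu2
  refine le_trans (le_of_eq ?_) hu2
  push_cast
  ring

end Pool.Agent.H607.Tr
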