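import Mathlib
import Pool.Agent.H607.Tr.Quant
import Pool.Graph.R_pool_sql_team_seeded_f72693b1.Results.MP_175f55_nt.HammingPeriodic

set_option autoImplicit false

namespace Pool.Agent.H607.Tr

/-- the counts in `y` and in the `b - 1` numbers `(u - y) / (b - 1)` add up to `N` -/
theorem quotient_counts (b : ℕ) (hb : 2 ≤ b) (y : ℝ) (hy : Irrational y) (d : ℤ)
    (hd0 : 0 ≤ d) (hdb : d < b) (N : ℕ) :
    count b d y N + ∑ u ∈ Finset.range (b - 1), count b d ((u - y) / ((b : ℝ) - 1)) N = N := by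
  have hb1 : (2 : ℝ) ≤ b := by exact_mod_cast hb
  have hne : (b : ℝ) - 1 ≠ 0 := by linarith
  set x : ℝ := -y / ((b : ℝ) - 1) with hx
  have hxirr : Irrational x := by
    have : x = -(y / ((b - 1 : ℕ) : ℝ)) := by
      rw [hx, Nat.cast_sub (by omega)]
      push_cast
      ring
    rw [this]
    exact (hy.div_natCast (by omega)).neg
  have h := sum_translates b hb x hxirr d hd0 hdb N
  have h1 : -(((b : ℝ) - 1) * x) = y := by rw [hx]; field_simp
  rw [h1] at h
  have h2 : ∑ u ∈ Finset.range (b - 1), count b d (x + u / ((b : ℝ) - 1)) N =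
      ∑ u ∈ Finset.range (b - 1), count b d ((u - y) / ((b : ℝ) - 1)) N := by
    refine Finset.sum_congr rfl fun u _ => ?_
    congr 1
    rw [hx]
    ring
  rw [h2] at h
  rw [h]
  have h3 := Finset.card_filter_add_card_filter_not (s := Finset.range N)
    (fun k => dig b y k = d)
  rw [Finset.card_range] at h3
  exact h3

theorem sqrt_two_quotients (d : ℤ) (hd0 : 0 ≤ d) (hd9 : d ≤ 9) (N : ℕ) :
    count 10 d (Real.sqrt 2) N + ∑ u ∈ Finset.range 9, count 10 d ((u - Real.sqrt 2) / 9) N = N ∧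
    Real.sqrt N ≤ 100 * (1 + ((∑ u ∈ Finset.range 9, count 10 d ((u - Real.sqrt 2) / 9) N : ℕ) :
      ℝ)) := by
  have h1 := quotient_counts 10 (by norm_num) (Real.sqrt 2) irrational_sqrt_two d hd0
    (by push_cast; omega) N
  have e : (((10 : ℕ) : ℝ) - 1) = 9 := by norm_num
  rw [e] at h1
  have h1 : count 10 d (Real.sqrt 2) N +
      ∑ u ∈ Finset.range 9, count 10 d ((u - Real.sqrt 2) / 9) N = N := h1
  refine ⟨h1, ?_⟩
  obtain ⟨v, rfl⟩ : ∃ v : ℕ, d = v := ⟨d.toNat, by omega⟩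
  have h2 := Pool.Agent.Results.MP_175f55_nt.HammingPeriodic.result (fun _ => v) 0 1
    (by norm_num) (fun _ _ => rfl) N
  norm_num at h2
  refine h2.trans (mul_le_mul_of_nonneg_left ?_ (by norm_num))
  have h3 : ((Finset.Icc 1 N).filter
      (fun k : ℕ => ¬ ⌊Real.sqrt 2 * (10 : ℝ) ^ k⌋₊ % 10 = v)).card ≤
      ∑ u ∈ Finset.range 9, count 10 (v : ℤ) ((u - Real.sqrt 2) / 9) N := by
    have h4 : ∑ u ∈ Finset.range 9, count 10 (v : ℤ) ((u - Real.sqrt 2) / 9) N =
        ((Finset.range N).filter (fun k => ¬ dig 10 (Real.sqrt 2) k = v)).card := by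
      have h5 := Finset.card_filter_add_card_filter_not (s := Finset.range N)
        (fun k => dig 10 (Real.sqrt 2) k = v)
      rw [Finset.card_range] at h5
      have h6 : count 10 (v : ℤ) (Real.sqrt 2) N =
        ((Finset.range N).filter (fun k => dig 10 (Real.sqrt 2) k = v)).card := rfl
      omega
    rw [h4]
    have hsub : ((Finset.Icc 1 N).filter
        (fun k : ℕ => ¬ ⌊Real.sqrt 2 * (10 : ℝ) ^ k⌋₊ % 10 = v)) ⊆
        ((Finset.range N).filter (fun k => ¬ dig 10 (Real.sqrt 2) k = v)).image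
          (fun k => k + 1) := by
      intro k hk
      obtain ⟨hk1, hk2⟩ := Finset.mem_filter.1 hk
      obtain ⟨hk3, hk4⟩ := Finset.mem_Icc.1 hk1
      refine Finset.mem_image.2 ⟨k - 1, Finset.mem_filter.2 ⟨Finset.mem_range.2 (by omega), ?_⟩,
        by omega⟩
      intro h
      apply hk2
      unfold dig at h
      rw [Nat.sub_add_cancel hk3] at h
      have h6 : ((⌊Real.sqrt 2 * (10 : ℝ) ^ k⌋₊ : ℕ) : ℤ) = ⌊Real.sqrt 2 * (10 : ℝ) ^ k⌋ :=
        Int.natCast_floor_eq_floor (by positivity)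
      have h7 : ((10 : ℕ) : ℝ) = 10 := by norm_num
      rw [h7, ← h6] at h
      exact_mod_cast h
    exact (Finset.card_le_card hsub).trans Finset.card_image_le
  have h8 : (((Finset.Icc 1 N).filter
      (fun k : ℕ => ¬ ⌊Real.sqrt 2 * (10 : ℝ) ^ k⌋₊ % 10 = v)).card : ℝ) ≤
      ((∑ u ∈ Finset.range 9, count 10 (v : ℤ) ((u - Real.sqrt 2) / 9) N : ℕ) : ℝ) :=
    Nat.cast_le.2 h3
  linarith

end Pool.Agent.H607.Tr
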