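import Mathlib
import Pool.Agent.H607.Tr.Upper

set_option autoImplicit false

namespace Pool.Agent.H607.Tr

lemma dig_zero (b : ℕ) (hb : 2 ≤ b) (a A n : ℕ) (t : ℝ) :
    dig b (((a * b ^ n + A : ℕ) : ℝ) / (b : ℝ) ^ (n + 1) + t) 0 =
      (a + ⌊(A : ℝ) / (b : ℝ) ^ n + b * t⌋) % b := by
  have hb0 : (b : ℝ) ≠ 0 := by positivity
  unfold dig
  have : (((a * b ^ n + A : ℕ) : ℝ) / (b : ℝ) ^ (n + 1) + t) * (b : ℝ) ^ (0 + 1) =
      ((A : ℝ) / (b : ℝ) ^ n + b * t) + ((a : ℤ) : ℝ) := by
    push_cast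
    field_simp
    ring
  rw [this, Int.floor_add_intCast, add_comm]

lemma dig_succ (b : ℕ) (hb : 2 ≤ b) (a A n k : ℕ) (t : ℝ) :
    dig b (((a * b ^ n + A : ℕ) : ℝ) / (b : ℝ) ^ (n + 1) + t) (k + 1) =
      dig b ((A : ℝ) / (b : ℝ) ^ n + b * t) k := by
  have hb0 : (b : ℝ) ≠ 0 := by positivity
  unfold dig
  have : (((a * b ^ n + A : ℕ) : ℝ) / (b : ℝ) ^ (n + 1) + t) * (b : ℝ) ^ (k + 1 + 1) =
      ((A : ℝ) / (b : ℝ) ^ n + b * t) * (b : ℝ) ^ (k + 1) + ((b * (a * b ^ k) : ℤ) : ℝ) := by
    push_cast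
    field_simp
    ring
  rw [this, Int.floor_add_intCast, Int.add_mul_emod_self_left]

/-- at least two first digits are allowed -/
lemma two_allowed (b m : ℕ) (hm : m + 2 ≤ b) (d : ℤ) (t : Fin m → ℝ) (n A : ℕ) :
    ∃ s : Finset ℕ, s.card = 2 ∧ ∀ a ∈ s, a < b ∧
      ∀ i, dig b (((a * b ^ n + A : ℕ) : ℝ) / (b : ℝ) ^ (n + 1) + t i) 0 ≠ d := by
  classical
  have hb : 2 ≤ b := by omega
  set c : Fin m → ℤ := fun i => ⌊(A : ℝ) / (b : ℝ) ^ n + b * t i⌋ with hc
  set bad : Finset ℕ := Finset.univ.image (fun i : Fin m => ((d - c i) % b).toNat) with hbad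
  have hcard : bad.card ≤ m := by
    refine Finset.card_image_le.trans ?_
    simp
  have h2 : 2 ≤ (Finset.range b \ bad).card := by
    have := Finset.le_card_sdiff bad (Finset.range b)
    rw [Finset.card_range] at this
    omega
  obtain ⟨s, hs, hs2⟩ := Finset.exists_subset_card_eq h2
  refine ⟨s, hs2, fun a ha => ?_⟩
  have ha' := Finset.mem_sdiff.1 (hs ha)
  have hab := Finset.mem_range.1 ha'.1
  refine ⟨hab, fun i hi => ha'.2 ?_⟩
  rw [dig_zero b hb] at hi
  refine Finset.mem_image.2 ⟨i, Finset.mem_univ _, ?_⟩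
  have e1 := Int.emod_add_mul_ediv ((a : ℤ) + ⌊(A : ℝ) / (b : ℝ) ^ n + b * t i⌋) b
  rw [hi] at e1
  have e2 : d - c i = a + b * (-(((a : ℤ) + ⌊(A : ℝ) / (b : ℝ) ^ n + b * t i⌋) / b)) := by
    simp only [hc]
    linarith
  rw [e2, Int.add_mul_emod_self_left, Int.emod_eq_of_lt (by positivity) (by exact_mod_cast hab)]
  simp

/-- `2 ^ n` numbers `A / b ^ n` none of whose translates has the digit `d` among the first `n`
places, at most `2 ^ (n - s)` of them with the same first `s` digits -/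
lemma tree (b m : ℕ) (hm : m + 2 ≤ b) (d : ℤ) (n : ℕ) : ∀ t : Fin m → ℝ,
    ∃ G : Finset ℕ, (∀ A ∈ G, A < b ^ n) ∧ G.card = 2 ^ n ∧
      (∀ A ∈ G, ∀ k < n, ∀ i, dig b ((A : ℝ) / (b : ℝ) ^ n + t i) k ≠ d) ∧
      ∀ s ≤ n, ∀ p, (G.filter (fun A => A / b ^ (n - s) = p)).card ≤ 2 ^ (n - s) := by
  classical
  have hb : 2 ≤ b := by omega
  induction n with
  | zero =>
    intro t
    refine ⟨{0}, by simp, by simp, by simp, ?_⟩
    intro s hs p
    have : s = 0 := by omega
    subst this
    refine (Finset.card_filter_le _ _).trans ?_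
    simp
  | succ n ih =>
    intro t
    obtain ⟨G, h1, h2, h3, h4⟩ := ih (fun i => b * t i)
    choose sel hsel2 hsel using fun A : ℕ => two_allowed b m hm d t n A
    have hbn : 0 < b ^ n := by positivity
    set G' : Finset ℕ := G.biUnion (fun A => (sel A).image (fun a => a * b ^ n + A)) with hG'
    have hmem : ∀ B ∈ G', B % b ^ n ∈ G ∧ B / b ^ n ∈ sel (B % b ^ n) := by
      intro B hB
      obtain ⟨A, hA, hB2⟩ := Finset.mem_biUnion.1 hB
      obtain ⟨a, ha, rfl⟩ := Finset.mem_image.1 hB2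
      have e1 : (a * b ^ n + A) % b ^ n = A := by
        rw [mul_comm, Nat.mul_add_mod, Nat.mod_eq_of_lt (h1 A hA)]
      have e2 : (a * b ^ n + A) / b ^ n = a := by
        rw [mul_comm, Nat.mul_add_div hbn, Nat.div_eq_of_lt (h1 A hA), add_zero]
      rw [e1, e2]
      exact ⟨hA, ha⟩
    have hlt : ∀ B ∈ G', B < b ^ (n + 1) := by
      intro B hB
      obtain ⟨-, hB2⟩ := hmem B hB
      have := (hsel _ _ hB2).1
      rw [Nat.div_lt_iff_lt_mul hbn] at this
      rw [pow_succ, mul_comm]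
      exact this
    have hcard : G'.card = 2 ^ (n + 1) := by
      rw [hG', Finset.card_biUnion]
      · have : ∀ A ∈ G, ((sel A).image (fun a => a * b ^ n + A)).card = 2 := by
          intro A _
          rw [Finset.card_image_of_injective, hsel2]
          intro a a' h
          simp only at h
          exact Nat.eq_of_mul_eq_mul_right hbn (by omega)
        rw [Finset.sum_congr rfl this, Finset.sum_const, h2, smul_eq_mul, pow_succ]
      · intro A hA A' hA' hne
        rw [Function.onFun, Finset.disjoint_left]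
        intro B hB hB'
        obtain ⟨a, _, rfl⟩ := Finset.mem_image.1 hB
        obtain ⟨a', _, he⟩ := Finset.mem_image.1 hB'
        apply hne
        have e1 : (a * b ^ n + A) % b ^ n = A := by
          rw [mul_comm, Nat.mul_add_mod, Nat.mod_eq_of_lt (h1 A hA)]
        have e2 : (a' * b ^ n + A') % b ^ n = A' := by
          rw [mul_comm, Nat.mul_add_mod, Nat.mod_eq_of_lt (h1 A' hA')]
        rw [← e1, ← e2, he]
    refine ⟨G', hlt, hcard, ?_, ?_⟩
    · intro B hB k hk i
      obtain ⟨hA, ha⟩ := hmem B hB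
      have hBe : B = B / b ^ n * b ^ n + B % b ^ n := (Nat.div_add_mod' B (b ^ n)).symm
      rw [hBe]
      rcases k with _ | k
      · exact (hsel _ _ ha).2 i
      · rw [dig_succ b hb]
        exact h3 _ hA k (by omega) i
    · intro s hs p
      rcases s with _ | s
      · refine (Finset.card_filter_le _ _).trans ?_
        rw [hcard]
        simp
      · have hns : n + 1 - (s + 1) = n - s := by omega
        rw [hns]
        refine le_trans ?_ (h4 s (by omega) (p % b ^ s))
        refine Finset.card_le_card_of_injOn (fun B => B % b ^ n) ?_ ?_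
        · intro B hB
          have hB' := Finset.mem_filter.1 (Finset.mem_coe.1 hB)
          refine Finset.mem_coe.2 (Finset.mem_filter.2 ⟨(hmem B hB'.1).1, ?_⟩)
          have hp : b ^ n = b ^ (n - s) * b ^ s := by rw [← pow_add]; congr 1; omega
          show B % b ^ n / b ^ (n - s) = p % b ^ s
          rw [hp, Nat.mod_mul_right_div_self, hB'.2]
        · intro B hB C hC hBC
          have hB' := Finset.mem_filter.1 (Finset.mem_coe.1 hB)
          have hC' := Finset.mem_filter.1 (Finset.mem_coe.1 hC)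
          simp only at hBC
          have hp : b ^ n = b ^ (n - s) * b ^ s := by rw [← pow_add]; congr 1; omega
          have e1 : B / b ^ n = C / b ^ n := by
            rw [hp, ← Nat.div_div_eq_div_mul, ← Nat.div_div_eq_div_mul, hB'.2, hC'.2]
          rw [← Nat.div_add_mod' B (b ^ n), ← Nat.div_add_mod' C (b ^ n), e1, hBC]

end Pool.Agent.H607.Tr
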