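import Mathlib
import Pool.Agent.H607.Tr.Tree

set_option autoImplicit false

open Set Topology

namespace Pool.Agent.H607.Tr

/-- the open condition for the digit `d` -/
def op (b : ℕ) (d : ℤ) (t : ℝ) (k : ℕ) : Set ℝ :=
  {x | ∃ z : ℤ, z % b = d ∧ (z : ℝ) < (x + t) * (b : ℝ) ^ (k + 1) ∧
    (x + t) * (b : ℝ) ^ (k + 1) < z + 1}

lemma isOpen_op (b : ℕ) (d : ℤ) (t : ℝ) (k : ℕ) : IsOpen (op b d t k) := by
  have : op b d t k = ⋃ z : ℤ, ⋃ _ : z % b = d, {x : ℝ | (z : ℝ) < (x + t) * (b : ℝ) ^ (k + 1) ∧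
    (x + t) * (b : ℝ) ^ (k + 1) < z + 1} := by
    ext x
    constructor
    · rintro ⟨z, hz, h⟩
      exact mem_iUnion.2 ⟨z, mem_iUnion.2 ⟨hz, h⟩⟩
    · intro h
      obtain ⟨z, hz⟩ := mem_iUnion.1 h
      obtain ⟨hz1, hz2⟩ := mem_iUnion.1 hz
      exact ⟨z, hz1, hz2⟩
  rw [this]
  refine isOpen_iUnion fun z => isOpen_iUnion fun _ => ?_
  have hcont : Continuous fun x : ℝ => (x + t) * (b : ℝ) ^ (k + 1) := by fun_prop
  exact (isOpen_lt continuous_const hcont).inter (isOpen_lt hcont continuous_const)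

lemma dig_of_op {b : ℕ} {d : ℤ} {t : ℝ} {k : ℕ} {x : ℝ} (h : x ∈ op b d t k) :
    dig b (x + t) k = d := by
  obtain ⟨z, hz, h1, h2⟩ := h
  unfold dig
  rw [← hz]
  congr 1
  rw [Int.floor_eq_iff]
  exact ⟨h1.le, h2⟩

lemma card_near (b : ℕ) (hb : 2 ≤ b) (n s : ℕ) (hs : s ≤ n) (e : ℝ) (G : Finset ℕ)
    (hG : ∀ p, (G.filter (fun A => A / b ^ (n - s) = p)).card ≤ 2 ^ (n - s)) (P : ℕ → Prop)
    [DecidablePred P]
    (hP : ∀ A, P A → e - ((b : ℝ) ^ s)⁻¹ < (A : ℝ) / (b : ℝ) ^ n ∧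
      (A : ℝ) / (b : ℝ) ^ n < e + ((b : ℝ) ^ s)⁻¹) :
    (G.filter P).card ≤ 3 * 2 ^ (n - s) := by
  classical
  set q : ℤ := ⌊e * (b : ℝ) ^ s⌋ with hq
  have hsub : G.filter P ⊆ (({-1, 0, 1} : Finset ℤ).biUnion fun c =>
      G.filter (fun A => A / b ^ (n - s) = (q + c).toNat)) := by
    intro A hA
    obtain ⟨hAG, hAP⟩ := Finset.mem_filter.1 hA
    obtain ⟨h1, h2⟩ := hP A hAP
    have hbs : (0 : ℝ) < (b : ℝ) ^ s := by positivity
    have hbns : 0 < b ^ (n - s) := by positivity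
    set p : ℕ := A / b ^ (n - s) with hp
    have hy : (A : ℝ) / (b : ℝ) ^ n * (b : ℝ) ^ s = (A : ℝ) / ((b ^ (n - s) : ℕ) : ℝ) := by
      have : (b : ℝ) ^ n = (b : ℝ) ^ (n - s) * (b : ℝ) ^ s := by rw [← pow_add]; congr 1; omega
      push_cast
      rw [this]
      field_simp
    have hfl : ⌊(A : ℝ) / (b : ℝ) ^ n * (b : ℝ) ^ s⌋ = (p : ℤ) := by
      rw [hy, Int.floor_div_natCast]
      simp [hp]
    have h3 : e * (b : ℝ) ^ s - 1 < (A : ℝ) / (b : ℝ) ^ n * (b : ℝ) ^ s := by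
      have := mul_lt_mul_of_pos_right h1 hbs
      rw [sub_mul, inv_mul_cancel₀ hbs.ne'] at this
      exact this
    have h4 : (A : ℝ) / (b : ℝ) ^ n * (b : ℝ) ^ s < e * (b : ℝ) ^ s + 1 := by
      have := mul_lt_mul_of_pos_right h2 hbs
      rw [add_mul, inv_mul_cancel₀ hbs.ne'] at this
      exact this
    have h5 : q - 1 ≤ (p : ℤ) := by
      rw [← hfl, Int.le_floor]
      push_cast
      have := Int.floor_le (e * (b : ℝ) ^ s)
      linarith
    have h6 : (p : ℤ) ≤ q + 1 := by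
      rw [← hfl]
      have h7 : (⌊(A : ℝ) / (b : ℝ) ^ n * (b : ℝ) ^ s⌋ : ℝ) < e * (b : ℝ) ^ s + 1 :=
        lt_of_le_of_lt (Int.floor_le _) h4
      have h8 := Int.lt_floor_add_one (e * (b : ℝ) ^ s)
      have h9 : (⌊(A : ℝ) / (b : ℝ) ^ n * (b : ℝ) ^ s⌋ : ℝ) < (q : ℝ) + 2 := by
        rw [hq]; linarith
      have h10 : ⌊(A : ℝ) / (b : ℝ) ^ n * (b : ℝ) ^ s⌋ < q + 2 := by exact_mod_cast h9
      omega
    refine Finset.mem_biUnion.2 ⟨(p : ℤ) - q, ?_, Finset.mem_filter.2 ⟨hAG, ?_⟩⟩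
    · simp only [Finset.mem_insert, Finset.mem_singleton]
      omega
    · show p = _
      have : q + ((p : ℤ) - q) = p := by ring
      rw [this]
      simp
  refine (Finset.card_le_card hsub).trans (Finset.card_biUnion_le.trans ?_)
  refine (Finset.sum_le_card_nsmul _ _ (2 ^ (n - s)) (fun c _ => hG _)).trans ?_
  rw [smul_eq_mul]
  exact Nat.mul_le_mul_right _ (by decide)

theorem sharp (b m : ℕ) (hm : m + 2 ≤ b) (t : Fin m → ℝ) (d : ℤ) :
    ¬ {x : ℝ | ∀ i k, dig b (x + t i) k ≠ d}.Countable := by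
  classical
  intro hS
  have hb : 2 ≤ b := by omega
  have hb0 : (0 : ℝ) < b := by positivity
  set S : Set ℝ := {x : ℝ | ∀ i k, dig b (x + t i) k ≠ d} with hSdef
  set F : ℕ → Set ℝ := fun n => Icc 0 1 ∩ ⋂ (k : ℕ) (_ : k < n) (i : Fin m), (op b d (t i) k)ᶜ
    with hF
  have hFclosed : ∀ n, IsClosed (F n) := by
    intro n
    refine isClosed_Icc.inter (isClosed_iInter fun k => isClosed_iInter fun _ =>
      isClosed_iInter fun i => (isOpen_op b d (t i) k).isClosed_compl)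
  have hFcompact : ∀ n, IsCompact (F n) := fun n =>
    isCompact_Icc.of_isClosed_subset (hFclosed n) inter_subset_left
  have hFanti : Antitone F := by
    intro n n' hnn'
    refine inter_subset_inter_right _ ?_
    intro x hx
    simp only [mem_iInter] at hx ⊢
    exact fun k hk i => hx k (lt_of_lt_of_le hk hnn') i
  -- the boundary points
  set R : Set ℝ := ⋃ (i : Fin m) (k : ℕ) (z : ℤ), {(z : ℝ) / (b : ℝ) ^ (k + 1) - t i} with hR
  have hRc : R.Countable :=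
    countable_iUnion fun i => countable_iUnion fun k => countable_iUnion fun z =>
      countable_singleton _
  have hint : (⋂ n, F n) ⊆ S ∪ R ∪ {0} := by
    intro x hx
    by_cases hxR : x ∈ R
    · exact Or.inl (Or.inr hxR)
    · refine Or.inl (Or.inl ?_)
      intro i k hd
      have hxk := mem_iInter.1 hx (k + 1)
      have h1 : x ∉ op b d (t i) k := by
        have := hxk.2
        simp only [mem_iInter] at this
        exact this k (Nat.lt_succ_self k) i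
      apply h1
      unfold dig at hd
      refine ⟨⌊(x + t i) * (b : ℝ) ^ (k + 1)⌋, hd, ?_, Int.lt_floor_add_one _⟩
      refine lt_of_le_of_ne (Int.floor_le _) fun he => hxR ?_
      simp only [hR, mem_iUnion, mem_singleton_iff]
      refine ⟨i, k, ⌊(x + t i) * (b : ℝ) ^ (k + 1)⌋, ?_⟩
      rw [he]
      field_simp
      ring
  have hc : (S ∪ R ∪ {0}).Countable := (hS.union hRc).union (countable_singleton 0)
  obtain ⟨e, he⟩ := hc.exists_eq_range ⟨0, Or.inr rfl⟩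
  set V : ℕ → Set ℝ := fun j =>
    Ioo (e j - ((b : ℝ) ^ (j + 3))⁻¹) (e j + ((b : ℝ) ^ (j + 3))⁻¹) with hV
  have hVopen : ∀ j, IsOpen (V j) := fun j => isOpen_Ioo
  obtain ⟨n0, hn0⟩ : ∃ n, F n ⊆ ⋃ j, V j := by
    refine exists_subset_nhds_of_isCompact' (hFanti.directed_ge) hFcompact hFclosed ?_
    intro x hx
    have h1 : x ∈ range e := by rw [← he]; exact hint hx
    obtain ⟨j, rfl⟩ := h1
    refine (isOpen_iUnion hVopen).mem_nhds (mem_iUnion.2 ⟨j, ?_⟩)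
    have : (0 : ℝ) < ((b : ℝ) ^ (j + 3))⁻¹ := by positivity
    exact ⟨by linarith, by linarith⟩
  obtain ⟨J, hJ⟩ := (hFcompact n0).elim_finite_subcover V hVopen hn0
  set n : ℕ := n0 + J.sup (fun j => j + 3) with hn
  have hjn : ∀ j ∈ J, j + 3 ≤ n := fun j hj =>
    (Finset.le_sup (f := fun j => j + 3) hj).trans (Nat.le_add_left _ _)
  obtain ⟨G, hG1, hG2, hG3, hG4⟩ := tree b m hm d n t
  have hGF : ∀ A ∈ G, ∃ j ∈ J, (A : ℝ) / (b : ℝ) ^ n ∈ V j := by
    intro A hA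
    have h1 : (A : ℝ) / (b : ℝ) ^ n ∈ F n := by
      refine ⟨⟨by positivity, ?_⟩, ?_⟩
      · rw [div_le_one (by positivity)]
        exact_mod_cast (hG1 A hA).le
      · simp only [mem_iInter]
        intro k hk i hop
        exact hG3 A hA k hk i (dig_of_op hop)
    have h2 := hJ (hFanti (Nat.le_add_right n0 _) h1)
    simpa using h2
  have hcount : G.card ≤ ∑ j ∈ J, 3 * 2 ^ (n - (j + 3)) := by
    have hsub : G ⊆ J.biUnion (fun j => G.filter (fun A : ℕ => (A : ℝ) / (b : ℝ) ^ n ∈ V j)) := by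
      intro A hA
      obtain ⟨j, hj, hAj⟩ := hGF A hA
      exact Finset.mem_biUnion.2 ⟨j, hj, Finset.mem_filter.2 ⟨hA, hAj⟩⟩
    refine (Finset.card_le_card hsub).trans (Finset.card_biUnion_le.trans ?_)
    refine Finset.sum_le_sum fun j hj => ?_
    exact card_near b hb n (j + 3) (hjn j hj) (e j) G (hG4 _ (hjn j hj)) _ (fun A hA => hA)
  rw [hG2] at hcount
  have h1 : (2 : ℝ) ^ n ≤ ∑ j ∈ J, 3 * (2 : ℝ) ^ (n - (j + 3)) := by exact_mod_cast hcount
  have h2 : ∀ j ∈ J, 3 * (2 : ℝ) ^ (n - (j + 3)) = (2 : ℝ) ^ n * (3 / 8 * (1 / 2) ^ j) := by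
    intro j hj
    have h3 : (2 : ℝ) ^ n = (2 : ℝ) ^ (n - (j + 3)) * 2 ^ (j + 3) := by
      rw [← pow_add]
      congr 1
      have := hjn j hj
      omega
    rw [h3, pow_add, one_div, inv_pow]
    field_simp
    ring
  rw [Finset.sum_congr rfl h2, ← Finset.mul_sum, ← Finset.mul_sum] at h1
  have h3 : ∑ j ∈ J, ((1 : ℝ) / 2) ^ j ≤ 2 := by
    have := summable_geometric_two.sum_le_tsum J (fun j _ => by positivity)
    rw [tsum_geometric_two] at this
    exact this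
  have h4 : (0 : ℝ) < (2 : ℝ) ^ n := by positivity
  nlinarith

end Pool.Agent.H607.Tr
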